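import Pool.Agent.N846.AT.PlanK
import Pool.Agent.N846.AT.GenAll

/-!
# MP_08cfa9_nt: almost all unramified forms on SO(2n+1) over a number field are tempered at all
small places

The input is the effective (joint) Plancherel equidistribution of the Satake parameters (Finis and
Matz), stated as a field of `FormsSO`.
-/

set_option autoImplicit false

namespace Pool.Agent.Results.MP_08cfa9_nt.AlmostAllFormsSO

open Finset NumberField IsDedekindDomain
open Pool.Agent.N846.AT (psum word Unitary Tempered pt sp densSp massSp plSp)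

/-- `Form` is a set of automorphic representations of the split group `SO(2n+1)` over the number
field `k`, unramified outside the set `E` of finite places, `upTo T` the finite set of those with
spectral parameter of size at most `T`, and `α π v` are the `2n` Satake parameters of `π` at `v`.
`unitary`, `bound`: unitarity and some bound `(N v) ^ b` for the parameters; `equi`: the effective
joint equidistribution with respect to the unramified Plancherel measures. -/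
structure FormsSO (n : ℕ) (k : Type) [Field k] [NumberField k] (E : Set (HeightOneSpectrum (𝓞 k)))
    (Form : Type) (upTo : ℝ → Finset Form)
    (α : Form → HeightOneSpectrum (𝓞 k) → Fin (n + n) → ℂ) : Prop where
  unitary : ∀ T : ℝ, ∀ π ∈ upTo T, ∀ v ∉ E, Unitary (α π v)
  bound : ∃ b : ℝ, 0 ≤ b ∧ ∀ T : ℝ, ∀ π ∈ upTo T, ∀ v ∉ E, ∀ i,
    ‖α π v i‖ ≤ (Ideal.absNorm v.asIdeal : ℝ) ^ b
  equi : ∃ A C η : ℝ, 0 ≤ A ∧ 0 ≤ C ∧ 0 < η ∧ ∀ T : ℝ, 2 ≤ T →
    ∀ P : Finset (HeightOneSpectrum (𝓞 k)), (∀ v ∈ P, v ∉ E) →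
    ∀ (w : HeightOneSpectrum (𝓞 k) → List ℤ) (κ : ℕ),
    (∀ v ∈ P, (w v).sum = 0 ∧ ((w v).map (fun m => (m.natAbs : ℕ))).sum ≤ κ) →
    ‖∑ π ∈ upTo T, ∏ v ∈ P, word (α π v) (w v) - ((upTo T).card : ℂ) *
        ∏ v ∈ P, plSp (Ideal.absNorm v.asIdeal : ℝ) (fun a : Fin (n + n) → ℂ => word a (w v))‖ ≤
      C * (∏ v ∈ P, ((n + n : ℕ) : ℝ) ^ (w v).length) *
        (∏ v ∈ P, (Ideal.absNorm v.asIdeal : ℝ)) ^ (A * (κ + 1)) * T ^ (-η) * (upTo T).card

open scoped Classical in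
/-- For `0 < ε ≤ 1`, with constants depending on the family, `ε` and `β` only:
1. for every nonempty finite set `P` of places outside `E` the proportion of the `π` up to `T` that
are not tempered at any `v ∈ P` is at most `(C (log N P / log T) ^ (3 - ε)) ^ |P| + C T ^ (- c)`;
2. for all `X`, `T ≥ 2` and `m ≥ 1` the proportion of the `π` that are not tempered at `m` or more
places outside `E` with `N v ≤ X` is at most
`(C X m ^ (2 - ε) (log X / log T) ^ (3 - ε)) ^ m + C T ^ (- c)`;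
3. for `0 ≤ β < 1` the proportion of the `π` that are not tempered at `(log T) ^ β` or more places
outside `E` with `N v ≤ (log T) ^ (3 - 2 β - ε)` is at most `C exp (- (log T) ^ β)`;
4. for any finite set `P` of places outside `E` the mean number of the `v ∈ P` at which `π` is not
tempered is at most `C ∑_{v ∈ P} (log N v / log T) ^ (3 - ε)`;
5. all `π` up to `T` outside a proportion `C (log T) ^ (- ε / 4)` are tempered at all places
`v ∉ E` with `N v ≤ (log T) ^ (3 - ε)` and have parameters of size at most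
`exp (C (log N v) ^ 2 / log T)` at every place `v ∉ E`. -/
theorem result {n : ℕ} (hn : 1 ≤ n) {k : Type} [Field k] [NumberField k]
    {E : Set (HeightOneSpectrum (𝓞 k))} {Form : Type} {upTo : ℝ → Finset Form}
    {α : Form → HeightOneSpectrum (𝓞 k) → Fin (n + n) → ℂ} (h : FormsSO n k E Form upTo α)
    {ε : ℝ} (he0 : 0 < ε) (he1 : ε ≤ 1) :
    (∃ C c : ℝ, 0 < C ∧ 0 < c ∧ ∀ T : ℝ, 2 ≤ T →
      ∀ P : Finset (HeightOneSpectrum (𝓞 k)), P.Nonempty → (∀ v ∈ P, v ∉ E) →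
      (((upTo T).filter (fun π => ∀ v ∈ P, ¬ Tempered (α π v))).card : ℝ) ≤
        ((C * (Real.log (∏ v ∈ P, (Ideal.absNorm v.asIdeal : ℝ)) / Real.log T) ^ (3 - ε)) ^ P.card +
          C * T ^ (-c)) * (upTo T).card) ∧
    (∃ C c : ℝ, 0 < C ∧ 0 < c ∧ ∀ T X : ℝ, 2 ≤ T → 2 ≤ X → ∀ m : ℕ, 1 ≤ m →
      (((upTo T).filter (fun π => ∃ P : Finset (HeightOneSpectrum (𝓞 k)), P.card = m ∧
        ∀ v ∈ P, v ∉ E ∧ (Ideal.absNorm v.asIdeal : ℝ) ≤ X ∧ ¬ Tempered (α π v))).card : ℝ) ≤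
        ((C * X * (m : ℝ) ^ (2 - ε) * (Real.log X / Real.log T) ^ (3 - ε)) ^ m + C * T ^ (-c)) *
          (upTo T).card) ∧
    (∀ β : ℝ, 0 ≤ β → β < 1 → ∃ C : ℝ, 0 < C ∧ ∀ T : ℝ, 2 ≤ T →
      (((upTo T).filter (fun π => ∃ P : Finset (HeightOneSpectrum (𝓞 k)),
        (Real.log T) ^ β ≤ (P.card : ℝ) ∧ ∀ v ∈ P, v ∉ E ∧
          (Ideal.absNorm v.asIdeal : ℝ) ≤ (Real.log T) ^ (3 - 2 * β - ε) ∧
          ¬ Tempered (α π v))).card : ℝ) ≤
        C * Real.exp (-(Real.log T) ^ β) * (upTo T).card) ∧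
    (∃ C : ℝ, 0 < C ∧ ∀ T : ℝ, 2 ≤ T →
      ∀ P : Finset (HeightOneSpectrum (𝓞 k)), (∀ v ∈ P, v ∉ E) →
      ∑ π ∈ upTo T, ((P.filter (fun v => ¬ Tempered (α π v))).card : ℝ) ≤
        C * (∑ v ∈ P, (Real.log (Ideal.absNorm v.asIdeal) / Real.log T) ^ (3 - ε)) *
          (upTo T).card) ∧
    (∃ C : ℝ, 0 < C ∧ ∀ T : ℝ, 2 ≤ T →
      (((upTo T).filter (fun π => ∃ v ∉ E,
        ((Ideal.absNorm v.asIdeal : ℝ) ≤ (Real.log T) ^ (3 - ε) ∧ ¬ Tempered (α π v)) ∨
          ∃ i, Real.exp (C * (Real.log (Ideal.absNorm v.asIdeal)) ^ 2 / Real.log T) <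
            ‖α π v i‖)).card : ℝ) ≤
        C * (Real.log T) ^ (-(ε / 4)) * (upTo T).card) := by
  obtain ⟨b, hb0, hb⟩ := h.bound
  have hn1 : 1 ≤ n + n := by omega
  have hP := Pool.Agent.N846.AT.PlanSp.plan_sp Pool.Agent.N846.AT.PlanK.leaves hn
  have hK := Pool.Agent.N846.AT.PlanK.places k
  have hF : Pool.Agent.N846.AT.Gen.FamilyOff (n + n) (plSp (n := n)) (HeightOneSpectrum (𝓞 k)) Form
    (fun v => Ideal.absNorm v.asIdeal) E upTo α := ⟨h.unitary, h.equi⟩
  obtain ⟨-, -, h3, h4⟩ := Pool.Agent.N846.AT.Gen.four Pool.Agent.N846.AT.PlanK.leaves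
    Pool.Agent.N846.AT.newt hn1 hP hK hF hb0 hb he0 he1
  obtain ⟨g1, g2, g3⟩ := Pool.Agent.N846.AT.Gen.three Pool.Agent.N846.AT.PlanK.leaves hn1 hP hK hF
    he0 he1
  exact ⟨g1, g2, g3, h3, h4⟩

end Pool.Agent.Results.MP_08cfa9_nt.AlmostAllFormsSO
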