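import Pool.Agent.N859.G4.Main

/-!
# Generic cuspidal representations of `GL_4`: places with two unitary Satake parameters

Let `K` be a number field and `π` a unitary cuspidal automorphic representation of `GL_4` over `K` (every such `π` is
globally generic), unramified outside the finite set `S` of finite places, with Satake parameters
`α v = (α v 0, α v 1, α v 2, α v 3)`, `v ∉ S`. Let `m` be the order of the pole at `s = 1` of
`L(s, ∧²π × ∧²π~)`; one has `m = 1` if and only if the automorphic representation `∧²π` of `GL_6` is cuspidal, and
`m = 2` for the transfer of a generic cuspidal representation of `PGSp_4` with cuspidal standard transfer to `GL_5`.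

We prove: outside a set of places of upper Dirichlet density at most `m / 4`, the trace of the exterior square
`∑_{i<j} α_i α_j` has absolute value less than `2` and at least two of the four Satake parameters have absolute
value `1`. So for `∧²π` cuspidal this holds at three quarters of all places. (The number of parameters of absolute value `1` is
even; for `GL_n`, `n` odd, one parameter of absolute value `1` exists at every place for trivial reasons, for `n = 4`
we know of no earlier result of this kind.) More precisely the places where no parameter is unitary and some parameter satisfies `|α| + 1/|α| ≥ T` have upper density at most `m / (2 T - 2)²`, `T ≥ 2`.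

The structure `CuspidalGL4` lists what is used of `π`; all of it is known: the local components are unitary;
the Rankin-Selberg `L`-functions of `π` and of its exterior square (automorphic by Kim) converge
absolutely for `Re s > 1` and have poles of order `1` and `m` at `s = 1` (Jacquet, Piatetski-Shapiro, Shalika).

Proof: if no parameter is unitary, the parameters are `z, 1/conj z, w, 1/conj w` with `|z|, |w| ≠ 1`, and
`∑_{i<j} α_i α_j = (z + 1/conj z)(w + 1/conj w) + z/conj z + w/conj w` has absolute value greater than `2 · 2 - 2`;
the mean of the square of this absolute value over all places is `m`.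
-/

set_option autoImplicit false

namespace Pool.Agent.Results.MP_08cfa9_nt.HalfUnitaryGL4

open NumberField IsDedekindDomain Pool.Agent.N859.G4

/-- **Places with two unitary Satake parameters, `GL_4`.** -/
theorem result {K : Type*} [Field K] [NumberField K] {S : Finset (HeightOneSpectrum (𝓞 K))}
    {α : PL S → Fin 4 → ℂ} {m : ℕ} (h : CuspidalGL4 α m) :
    1 - (m : ℝ) / 4 ≤ lowerDensity (fun v => ‖ext (α v) 1‖ < 2 ∧
      2 ≤ (Finset.univ.filter fun i => ‖α v i‖ = 1).card) ∧
    ∀ T : ℝ, 2 ≤ T → upperDensity (fun v => (∀ i, ‖α v i‖ ≠ 1) ∧ ∃ i, T ≤ ‖α v i‖ + ‖α v i‖⁻¹) ≤
      m / (4 * (T - 1) ^ 2) :=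
  main_half h

end Pool.Agent.Results.MP_08cfa9_nt.HalfUnitaryGL4
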