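import Mathlib
import Pool.Agent.N678.PG.Parts

/-!
# Generic cuspidal representations of `GL(2)^m`: the number of the nontempered components

Let `K` be a number field and `Π = π_1 ⊗ ... ⊗ π_m` a unitary cuspidal automorphic representation of the group
`G = GL(2)^m` over `K` (every such `Π` is globally generic). `Π_v` is tempered if and only if all the `π_{i,v}` are; let
`N(v)` be the number of the `i` for which `π_{i,v}` is not tempered. The density theorem of Kim and Shahidi
(`π_{i,v}` is tempered at `34/35` of the places) gives by itself only a union bound for `m ≤ 34`, and nothing on `N(v)`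
for large `m`. Suppose that no `π_i` is dihedral, tetrahedral or octahedral (else `π_i` is tempered), and that the `π_i` are
essentially different: the `Ad π_i` are pairwise not isomorphic, and so are the `A⁴ π_i = Sym⁴ π_i ⊗ ω_i^{-2}`. We show:

1. `|a_i(v)| ≥ R_i` for all `i`, `a_i(v)` the trace of the Satake parameter of `π_{i,v}` and `R_i ≥ 2`, holds for a set of
   places of upper Dirichlet density at most `1 / (1 + ∑_i ((R_i² - 1)² + (R_i⁴ - 3 R_i² + 1)²))`; in particular
   **`N(v) = m` for at most `1 / (34 m + 1)` of the places**;
2. **`N(v) ≥ (1/10 + δ) m` for at most `153 / (153 + 5000 δ² m)` of the places**, for every `δ > 0`: for large `m` nearly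
   nine tenths of the components of `Π_v` are tempered at nearly all places;
3. `N(v) = 0`, i.e. `Π_v` is tempered, for at least `1 - m/35` of the places; and for `m = 35`, where the union bound is
   empty, for at least `1/215` of them. So **up to thirty-five forms are simultaneously tempered at a positive
   proportion of the places**.

An example is `G = Res_{L/K} GL(2)`, `L / K` a Galois extension of degree `m`, and `π` a cuspidal representation of `GL(2)`
over `L` which is not equivalent to its conjugates up to twists: take the conjugates of `π` for the `π_i`. At the places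
`v` of `K` which split completely in `L` the components of `Π_v` are the `π_w`, `w` above `v`, and the densities over
the places `w` of `L` are the densities over these `v`. For the least place at which `m` forms are tempered see
`MP_8410ab_nt.SimultaneouslyTempered` (`m ≤ 9`, for `K = ℚ` also `m ≤ 25`), which has no densities.

The structure `Family` lists what is used of the `π_i`; all of it is known: the local components are unitary; the
Rankin-Selberg `L`-functions of the pairs of representations among `1`, `Ad π_i` (Gelbart, Jacquet) and `A⁴ π_i` (Kim; Kim,
Shahidi), which are unitary cuspidal representations of `GL(1)`, `GL(3)` and `GL(5)`, converge absolutely for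
`Re s > 1`, have no zeros for `Re s ≥ 1`, and the partial `L`-functions are entire, apart from a simple pole at `s = 1` in the
case of two equal representations (Jacquet, Piatetski-Shapiro, Shalika; Shahidi; Moeglin, Waldspurger).

The proof: for every real quadratic form that is nonnegative the value of the form at the vector of the numbers
`1, tr Ad π_{i,v}, tr A⁴ π_{i,v}` has a mean value over the places which is at most the trace of the matrix (the
prime powers contribute nonnegative terms and are dropped). The forms used are squares of linear forms in 1 and 2, with
`tr A⁴ + (5/3) tr Ad + 10/9 = (|a|² - 2/3)²` in 2, and, in 3, with `f_i = (1 + 3 tr Ad π_{i,v} + 5 tr A⁴ π_{i,v}) / 35`, which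
is at least `1` if `π_{i,v}` is not tempered, `∑ f_i²` and `(101/100) ∑ f_i² - (1/100) (∑ f_i)²`.
-/

set_option autoImplicit false

namespace Pool.Agent.Results.MP_08cfa9_nt.ManyComponents

open NumberField IsDedekindDomain Pool.Agent.N678.PG

/-- **The number of the nontempered components of a cuspidal representation of `GL(2)^m`.** -/
theorem result {K : Type} [Field K] [NumberField K] {S : Finset (HeightOneSpectrum (𝓞 K))} {m : ℕ} (hm : 0 < m)
    {α : Fin m → HeightOneSpectrum (𝓞 K) → Fin 2 → ℂ} (h : Family S α) :
    (∀ R : Fin m → ℝ, (∀ i, 2 ≤ R i) → UpperDensityLe S (fun v => ∀ i, R i ≤ ‖∑ j, α i v j‖)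
      (1 / (1 + ∑ i, ((R i ^ 2 - 1) ^ 2 + (R i ^ 4 - 3 * R i ^ 2 + 1) ^ 2)))) ∧
    UpperDensityLe S (fun v => nontempered α v = m) (1 / (34 * m + 1)) ∧
    (∀ δ : ℝ, 0 < δ →
      UpperDensityLe S (fun v => (1 / 10 + δ) * m ≤ nontempered α v) (153 / (153 + 5000 * δ ^ 2 * m))) ∧
    LowerDensityGe S (fun v => nontempered α v = 0) (1 - m / 35) ∧
    (m = 35 → LowerDensityGe S (fun v => nontempered α v = 0) (1 / 215)) := by
  classical
  have h0 : ∀ v, ¬ Bad α v → nontempered α v = 0 := fun v hv => by
    unfold nontempered
    rw [Finset.card_eq_zero, Finset.filter_eq_empty_iff]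
    intro i _ hi
    exact hv ⟨i, hi⟩
  refine ⟨fun R hR => joint h R hR, (all_nontempered h).mono (fun v _ hv i => ?_) le_rfl, fun δ hδ => ?_,
    (bad_le h).compl fun v _ hv => h0 v hv, ?_⟩
  · unfold nontempered at hv
    have h1 : (Finset.univ.filter fun i => ¬ ∀ j, ‖α i v j‖ = 1) = Finset.univ := by
      refine Finset.eq_univ_of_card _ ?_
      rw [hv, Fintype.card_fin]
    have h2 := Finset.mem_univ i
    rw [← h1, Finset.mem_filter] at h2
    exact h2.2
  · refine (many h hδ hm).mono (fun v _ hv => ?_) le_rfl
    unfold nontempered at hv
    convert hv
  · rintro rfl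
    have h1 := (bad_35 h).compl (Q := fun v => nontempered α v = 0) fun v _ hv => h0 v hv
    norm_num at h1
    norm_num
    exact h1

end Pool.Agent.Results.MP_08cfa9_nt.ManyComponents
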