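import Pool.Agent.N859.P4.Main

/-!
# Generic cuspidal representations of `PGSp_4`: how often each kind of non-tempered place occurs

Let `K` be a number field and `π` a globally generic cuspidal automorphic representation of `PGSp_4` over `K`,
unramified outside the finite set `S` of finite places, with Satake parameters `diag(a v, b v, 1 / b v, 1 / a v)` in
`Sp_4(ℂ)`, `v ∉ S`, and assume that its transfers to `GL_4` (spin) and `GL_5` (standard) are cuspidal. As `π_v` is
unitary, it is of one of the following kinds: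

* tempered, `|a| = |b| = 1`;
* one or both of `a`, `b` are real and not `±1`, the other one is real or has absolute value `1`;
* `a`, `b` are neither real nor of absolute value `1`, and `b` is one of `conj a`, `1 / conj a`.

We bound the upper Dirichlet densities of the non-tempered kinds, also with `|a| + 1/|a| ≥ T` or `|b| + 1/|b| ≥ T`
for the parameter which is not unitary. For `T ≥ 2` and `A = a + 1/a`, `B = b + 1/b`:

* some parameter real and not unitary: at most `((T + √(1 + x²)) / (T² - 1 - x))²` for every real `x` with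
  `-(T² + 1) ≤ x < T² - 1`; for `T = 2`, `x = -5/3` this is `((6 + √34) / 14)² < 5/7`;
* `a` and `b` both real and not unitary: at most `1 / (1 + (T² - 1)²)`, so `1/10` for `T = 2`;
* a parameter neither real nor unitary: at most `1 / (1 + (T² - 3)²)`, so `1/2` for `T = 2`;
* at least at half of the places `A`, `B` are real and `-4 < A B < 0` (so that one of `a`, `b` is unitary and not real).

The proof uses quadratic forms `λ |A + B|² + μ |1 + A B + x|²` in the traces `A + B` of the spin and `1 + A B` of the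
standard representation; their means are known, since the mean of `|A + B|²` and of `|1 + A B|²` is `1` and the mean of
`1 + A B` is `0`. The structure `GenericPGSp4` lists what is used of `π`; all of it is known: unitarity, the
Rankin-Selberg `L`-functions of the two transfers, and that `L(s, π, std)` is holomorphic and not zero at `s = 1`
(Jacquet-Shalika; Asgari-Shahidi, Gan-Takeda for the transfer to `GL_4`, Kim's exterior square for that to `GL_5`).
-/

set_option autoImplicit false

namespace Pool.Agent.Results.MP_08cfa9_nt.NontemperedKindsPGSp4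

open NumberField IsDedekindDomain Pool.Agent.N859.P4
open Pool.Agent.N859.G4 (PL upperDensity lowerDensity)

/-- **Non-tempered places of the different kinds, `PGSp_4`.** -/
theorem result {K : Type*} [Field K] [NumberField K] {S : Finset (HeightOneSpectrum (𝓞 K))}
    {a b : PL S → ℂ} (h : GenericPGSp4 a b) :
    (∀ T x : ℝ, 2 ≤ T → -(T ^ 2 + 1) ≤ x → x < T ^ 2 - 1 →
      upperDensity (fun v => ((a v).im = 0 ∧ ‖a v‖ ≠ 1 ∧ T ≤ ‖a v‖ + ‖a v‖⁻¹) ∨
        ((b v).im = 0 ∧ ‖b v‖ ≠ 1 ∧ T ≤ ‖b v‖ + ‖b v‖⁻¹)) ≤ ((T + √(1 + x ^ 2)) / (T ^ 2 - 1 - x)) ^ 2) ∧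
    (∀ T : ℝ, 2 ≤ T →
      upperDensity (fun v => ((a v).im = 0 ∧ ‖a v‖ ≠ 1 ∧ T ≤ ‖a v‖ + ‖a v‖⁻¹) ∧
        ((b v).im = 0 ∧ ‖b v‖ ≠ 1 ∧ T ≤ ‖b v‖ + ‖b v‖⁻¹)) ≤ 1 / (1 + (T ^ 2 - 1) ^ 2)) ∧
    (∀ T : ℝ, 2 ≤ T →
      upperDensity (fun v => ((a v).im ≠ 0 ∧ ‖a v‖ ≠ 1 ∧ T ≤ ‖a v‖ + ‖a v‖⁻¹) ∨
        ((b v).im ≠ 0 ∧ ‖b v‖ ≠ 1 ∧ T ≤ ‖b v‖ + ‖b v‖⁻¹)) ≤ 1 / (1 + (T ^ 2 - 3) ^ 2)) ∧
    1 / 2 ≤ lowerDensity (fun v => ∃ x y : ℝ,
      a v + (a v)⁻¹ = x ∧ b v + (b v)⁻¹ = y ∧ -4 < x * y ∧ x * y < 0) :=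
  ⟨fun _ _ hT h1 h2 => main_real h hT h1 h2, fun _ hT => main_both h hT, fun _ hT => main_complex h hT,
    main_opposite h⟩

end Pool.Agent.Results.MP_08cfa9_nt.NontemperedKindsPGSp4
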